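import Mathlib

set_option autoImplicit false

open Finset

namespace Pool.Agent.HomBent

variable {ι κ : Type} [DecidableEq ι]

/-- functions spanned by monomials of degree `k` in the variables of `U` -/
def H (U : Finset ι) (k : ℕ) : Submodule (ZMod 2) ((ι → ZMod 2) → ZMod 2) :=
  Submodule.span _ {f | ∃ s ⊆ U, s.card = k ∧ f = fun x => ∏ i ∈ s, x i}

theorem H.mono {U V : Finset ι} (h : U ⊆ V) (k : ℕ) : H U k ≤ H V k :=
  Submodule.span_mono fun _ ⟨s, a, b⟩ => ⟨s, a.trans h, b⟩

theorem H.mul {U V : Finset ι} {k l : ℕ} {f g : (ι → ZMod 2) → ZMod 2} (hf : f ∈ H U k)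
    (hg : g ∈ H V l) (d : Disjoint U V) : f * g ∈ H (U ∪ V) (k + l) := by
  have := Submodule.mul_mem_mul hf hg
  rw [H, H, Submodule.span_mul_span] at this
  refine Submodule.span_mono ?_ this
  rintro _ ⟨_, ⟨s, a, rfl, rfl⟩, _, ⟨t, b, rfl, rfl⟩, rfl⟩
  have e := d.mono a b
  exact ⟨s ∪ t, union_subset_union a b, card_union_of_disjoint e, by ext x; simp [prod_union e]⟩

theorem H.lin (U : Finset ι) : (fun x => ∑ i ∈ U, x i) ∈ H U 1 := by
  have : (fun x : ι → ZMod 2 => ∑ i ∈ U, x i) = ∑ i ∈ U, fun x => x i := by ext; simp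
  rw [this]
  exact Submodule.sum_mem _ fun i hi => Submodule.subset_span ⟨{i}, by simpa, by simp, by simp⟩

theorem H.prod (D : κ → Finset ι) (f : κ → (ι → ZMod 2) → ZMod 2) (k : ℕ) (T : Finset κ)
    (d : (T : Set κ).PairwiseDisjoint D) (hf : ∀ a ∈ T, f a ∈ H (D a) k) :
    (fun x => ∏ a ∈ T, f a x) ∈ H (T.biUnion D) (T.card * k) := by
  classical
  induction T using Finset.induction_on with
  | empty => exact Submodule.subset_span ⟨∅, by simp, by simp, by simp⟩
  | insert a T ha ih =>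
    have := H.mul (hf a (by simp)) (ih (d.subset (by simp)) fun b hb => hf b (by simp [hb]))
      ((disjoint_biUnion_right _ _ _).2 fun b hb => d (by simp) (by simp [hb]) fun e => ha (e ▸ hb))
    rw [biUnion_insert, card_insert_of_notMem ha, add_mul, one_mul, add_comm]
    convert this using 1
    ext x
    simp [prod_insert ha]

/-- elementary symmetric function -/
def sg (r : ℕ) (T : Finset κ) (v : κ → ZMod 2) : ZMod 2 := ∑ S ∈ T.powersetCard r, ∏ a ∈ S, v a

theorem H.sg [DecidableEq κ] (D : κ → Finset ι) (f : κ → (ι → ZMod 2) → ZMod 2) (k r : ℕ)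
    (T : Finset κ) (d : (T : Set κ).PairwiseDisjoint D) (hf : ∀ a ∈ T, f a ∈ H (D a) k) :
    (fun x => sg r T fun a => f a x) ∈ H (T.biUnion D) (r * k) := by
  have : (fun x => HomBent.sg r T fun a => f a x) =
      ∑ S ∈ T.powersetCard r, fun x => ∏ a ∈ S, f a x := by ext; simp [HomBent.sg]
  rw [this]
  refine Submodule.sum_mem _ fun S hS => ?_
  obtain ⟨a, rfl⟩ := mem_powersetCard.1 hS
  exact H.mono (biUnion_subset_biUnion_of_subset_left _ a) _
    (H.prod D f k S (d.subset a) fun b hb => hf b (a hb))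

theorem two (a : ZMod 2) : a = 0 ∨ a = 1 := by revert a; decide

theorem sg_eq [DecidableEq κ] (r : ℕ) (T : Finset κ) (v : κ → ZMod 2) :
    sg r T v = (T.filter fun a => v a = 1).card.choose r := by
  rw [← card_powersetCard, sg, ← sum_subset (powersetCard_mono (filter_subset (v · = 1) T)),
    sum_congr rfl (g := fun _ => 1)]
  · simp
  · exact fun S hS => prod_eq_one fun a ha => (mem_filter.1 ((mem_powersetCard.1 hS).1 ha)).2
  · intro S h1 h2
    rw [mem_powersetCard] at h1 h2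
    by_contra c
    exact h2 ⟨fun a ha => mem_filter.2 ⟨h1.1 ha, (two _).resolve_left
      (prod_ne_zero_iff.1 c a ha)⟩, h1.2⟩

theorem ch (t c : ℕ) (h : c < 2 ^ t) : ((2 ^ t + c).choose (2 ^ t) : ZMod 2) = 1 := by
  have : (0 : ℕ) < 2 ^ t := by positivity
  rw [← Polynomial.coeff_one_add_X_pow, pow_add, add_pow_char_pow, one_pow, add_mul, one_mul,
    Polynomial.coeff_add, Polynomial.coeff_one_add_X_pow, Nat.choose_eq_zero_of_lt h,
    Polynomial.coeff_X_pow_mul']
  simp [Polynomial.coeff_one_add_X_pow]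

theorem ch2 (t a b : ℕ) (h : a + b + 1 = 2 * 2 ^ t) :
    (a.choose (2 ^ t) : ZMod 2) + 1 = b.choose (2 ^ t) := by
  rcases lt_or_ge a (2 ^ t) with c | c
  · obtain ⟨d, rfl⟩ := Nat.exists_eq_add_of_le (show 2 ^ t ≤ b by omega)
    rw [Nat.choose_eq_zero_of_lt c, ch t d (by omega)]
    simp
  · obtain ⟨d, rfl⟩ := Nat.exists_eq_add_of_le c
    rw [Nat.choose_eq_zero_of_lt (show b < 2 ^ t by omega), ch t d (by omega)]
    decide

/-- the middle bit of the weight flips under complementation -/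
theorem sg_flip [DecidableEq κ] (t : ℕ) (T : Finset κ) (h : T.card + 1 = 2 * 2 ^ t)
    (v : κ → ZMod 2) (c : ZMod 2) : sg (2 ^ t) T (fun a => v a + c) = sg (2 ^ t) T v + c := by
  rcases two c with rfl | rfl
  · simp
  · rw [sg_eq, sg_eq, ch2 t _ (T.filter fun a => ¬v a = 1).card
      (by rw [card_filter_add_card_filter_not]; exact h)]
    congr 3
    ext a
    rcases two (v a) with e | e <;> simp [e]

theorem H.ex [Fintype ι] {k : ℕ} {f : (ι → ZMod 2) → ZMod 2} (h : f ∈ H univ k) :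
    ∃ S : Finset (Finset ι), (∀ s ∈ S, s.card = k) ∧ ∀ x, f x = ∑ s ∈ S, ∏ i ∈ s, x i := by
  have : ∃ c : Finset ι → ZMod 2, (∀ s, c s = 1 → s.card = k) ∧
      ∀ x, f x = ∑ s, c s * ∏ i ∈ s, x i := by
    induction h using Submodule.span_induction with
    | mem f hf =>
      obtain ⟨s, -, a, rfl⟩ := hf
      exact ⟨fun u => if u = s then 1 else 0, by simpa, by simp⟩
    | zero => exact ⟨0, by simp, by simp⟩
    | add f g _ _ a b =>
      obtain ⟨c, c1, c2⟩ := a
      obtain ⟨d, d1, d2⟩ := b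
      refine ⟨c + d, fun s h => (two (c s)).elim (fun e => d1 s (by simpa [e] using h)) (c1 s),
        fun x => by simp [c2, d2, add_mul, sum_add_distrib]⟩
    | smul r f _ a =>
      rcases two r with rfl | rfl
      · exact ⟨0, by simp, by simp⟩
      · simpa using a
  obtain ⟨c, c1, c2⟩ := this
  refine ⟨univ.filter (c · = 1), by simpa, fun x => ?_⟩
  rw [c2, sum_filter]
  exact sum_congr rfl fun s _ => by rcases two (c s) with e | e <;> simp [e]

theorem sgn : ∀ a b : ZMod 2, (-1 : ℤ) ^ (a + b).val = (-1) ^ a.val * (-1) ^ b.val := by decide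

theorem orth [Fintype ι] (c : ι → ZMod 2) :
    ∑ x : ι → ZMod 2, (-1 : ℤ) ^ (∑ i, x i * c i).val = if c = 0 then 2 ^ Fintype.card ι else 0 := by
  split_ifs with h
  · simp [h]
  · obtain ⟨i, hi⟩ := Function.ne_iff.1 h
    have e := Equiv.sum_comp (Equiv.addRight (Pi.single i 1 : ι → ZMod 2))
      fun x : ι → ZMod 2 => (-1 : ℤ) ^ (∑ i, x i * c i).val
    simp only [Equiv.coe_addRight, Pi.add_apply, add_mul, sum_add_distrib, sgn, Pi.single_apply,
      ite_mul, one_mul, zero_mul, sum_ite_eq', mem_univ, if_true, (two (c i)).resolve_left hi,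
      ZMod.val_one, pow_one, mul_neg, mul_one, sum_neg_distrib] at e
    omega

/-- bent functions on the cube with coordinates `ι` -/
def Bent [Fintype ι] (f : (ι → ZMod 2) → ZMod 2) : Prop :=
  ∀ a : ι → ZMod 2, (∑ x : ι → ZMod 2, (-1 : ℤ) ^ (f x + ∑ i, a i * x i).val) ^ 2 = 2 ^ Fintype.card ι

theorem transfer [Fintype ι] {n k : ℕ} (hn : Fintype.card ι = n) {f : (ι → ZMod 2) → ZMod 2}
    (h : f ∈ H univ k) (b : Bent f) : ∃ S : Finset (Finset (Fin n)), (∀ s ∈ S, s.card = k) ∧
      ∀ a : Fin n → ZMod 2, (∑ x : Fin n → ZMod 2,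
        (-1 : ℤ) ^ (ZMod.val ((∑ s ∈ S, ∏ i ∈ s, x i) + ∑ i : Fin n, a i * x i))) ^ 2 = 2 ^ n := by
  obtain ⟨S, h1, h2⟩ := H.ex h
  have e := Fintype.equivFinOfCardEq hn
  refine ⟨S.map (mapEmbedding e.toEmbedding).toEmbedding, by simpa, fun a => ?_⟩
  have := b (a ∘ e)
  rw [hn] at this
  rw [← this, ← (e.arrowCongr (Equiv.refl _)).sum_comp]
  simp [h2, ← e.sum_comp]

/-- Maiorana-McFarland functions in sheared coordinates -/
theorem mm [Fintype κ] [DecidableEq κ] (A : κ → κ → ZMod 2) (π : Equiv.Perm (κ → ZMod 2))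
    (g : (κ → ZMod 2) → ZMod 2) : Bent fun v : κ ⊕ κ → ZMod 2 =>
      ∑ j, v (.inl j) * π (fun p => v (.inr p) + ∑ j, A p j * v (.inl j)) j +
        g fun p => v (.inr p) + ∑ j, A p j * v (.inl j) := by
  intro a
  have e : ∀ x z : κ → ZMod 2, ∑ j, x j * π z j + g z + (∑ j, a (.inl j) * x j +
      ∑ p, a (.inr p) * (z p - ∑ j, A p j * x j)) = ∑ j, x j * (π z j + a (.inl j) -
        ∑ p, a (.inr p) * A p j) + (g z + ∑ p, a (.inr p) * z p) := by
    intro x z
    have : ∑ p, a (.inr p) * ∑ j, A p j * x j = ∑ j, x j * ∑ p, a (.inr p) * A p j := by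
      simp only [mul_sum]
      rw [sum_comm]
      simp only [mul_comm, mul_left_comm, mul_assoc]
    simp only [mul_add, mul_sub, sum_add_distrib, sum_sub_distrib, this, mul_comm (x _) (a _)]
    ring
  rw [← (Equiv.sumArrowEquivProdArrow _ _ _).symm.sum_comp, Fintype.sum_prod_type,
    sum_congr rfl fun x _ => ((Equiv.subRight fun p => ∑ j, A p j * x j).sum_comp _).symm, sum_comm]
  simp only [Fintype.sum_sum_type, Equiv.sumArrowEquivProdArrow_symm_apply_inl,
    Equiv.sumArrowEquivProdArrow_symm_apply_inr, Equiv.subRight_apply, Pi.sub_apply, sub_add_cancel,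
    e, sgn _ (g _ + _), ← sum_mul, orth]
  rw [sum_eq_single (π.symm fun j => ∑ p, a (.inr p) * A p j - a (.inl j))]
  · rw [if_pos (by ext; simp), mul_pow, ← pow_mul, ← pow_mul, mul_comm _ 2, mul_comm _ 2]
    simp [two_mul]
  · intro z _ hz
    rw [if_neg, zero_mul]
    exact fun c => hz (π.eq_symm_apply.2 (funext fun j => by
      have := congrFun c j
      simp only [Pi.zero_apply] at this
      linear_combination this))
  · simp

end Pool.Agent.HomBent
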